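import Pool.Agent.Helper6.TRI.Defs
import Pool.Agent.Helper42.SQ.GDefs2
import Pool.Agent.Helper61.DC.Ht

/-!
# TRI, part (a), block A1: Northcott for points of bounded degree

For `y` in an extension `L` of degree `d` of `k` the height of the norm of `y` (over `k`) is at most the height of `y` (over `L`). So the values of
`∏_σ (T - σ y)` at `T = 0, …, r` are in a finite set, and `y` is one of the roots of one of finitely many polynomials of degree at most `r`.
-/

set_option autoImplicit false

namespace Pool.Agent.TRI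

open Module MvPolynomial Pool.Agent.SQ
open Pool.Agent.Helper64.Vojta (Pl nv sn above)
open Pool.Agent.Chart (fld dg crd hgt val lam)

universe u

private theorem h1_map17 {k L : Type u} [Field k] [NumberField k] [Field L] [NumberField L] [Algebra k L] (y : k) :
    Height.logHeight₁ (algebraMap k L y) = finrank k L * Height.logHeight₁ y := by
  rw [Height.logHeight₁_eq_logHeight, Height.logHeight₁_eq_logHeight, ← Pool.Agent.Helper61.DC.logHeight_map]
  congr 1
  funext i
  fin_cases i
  · rfl
  · exact (map_one _).symm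

/-- the height of the norm -/
private theorem norm17 {k : Type u} [Field k] [NumberField k] {Ω : Type u} [Field Ω] [IsAlgClosed Ω] [Algebra k Ω]
    (L : IntermediateField k Ω) [FiniteDimensional k L] [NumberField L] (y : L) :
    Height.logHeight₁ (Algebra.norm k y) ≤ Height.logHeight₁ y := by
  classical
  have hcΩ : CharZero Ω := charZero_of_injective_algebraMap (algebraMap k Ω).injective
  let M : IntermediateField k Ω := IntermediateField.normalClosure k L Ω
  have hM1 : FiniteDimensional k M := normalClosure.is_finiteDimensional k L Ω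
  have hM0 : CharZero M := charZero_of_injective_algebraMap (algebraMap k M).injective
  have hM2 : FiniteDimensional ℚ M := Module.Finite.trans k M
  have hM : NumberField M := { to_charZero := hM0, to_finiteDimensional := hM2 }
  let s : (L →ₐ[k] Ω) → (L →ₐ[k] M) := fun σ =>
    σ.codRestrict M.toSubalgebra fun x => σ.fieldRange_le_normalClosure ⟨x, rfl⟩
  have hs : ∀ σ (x : L), ((s σ x : M) : Ω) = σ x := fun σ x => rfl
  -- the norm is the product of the conjugates
  have h1 : algebraMap k M (Algebra.norm k y) = ∏ σ : L →ₐ[k] Ω, s σ y := by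
    apply Subtype.ext
    have h2 := Algebra.norm_eq_prod_embeddings k Ω y
    have h3 : ((∏ σ : L →ₐ[k] Ω, s σ y : M) : Ω) = ∏ σ : L →ₐ[k] Ω, σ y := map_prod M.val (fun σ => s σ y) Finset.univ
    rw [h3]
    exact h2
  have hd : (0 : ℝ) < finrank k L := by exact_mod_cast finrank_pos
  -- the heights of the conjugates
  have h2 : ∀ σ, (finrank k L : ℝ) * Height.logHeight₁ (s σ y) = finrank k M * Height.logHeight₁ y := by
    intro σ
    let alg : Algebra L M := (s σ : L →+* M).toAlgebra
    have ht : IsScalarTower k L M := IsScalarTower.of_algebraMap_eq fun x => ((s σ).commutes x).symm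
    have h3 : Height.logHeight₁ (s σ y) = finrank L M * Height.logHeight₁ y := h1_map17 (k := L) (L := M) y
    rw [h3, ← mul_assoc]
    congr 1
    exact_mod_cast finrank_mul_finrank k L M
  have h4 : Height.logHeight₁ (algebraMap k M (Algebra.norm k y)) ≤ ∑ σ : L →ₐ[k] Ω, Height.logHeight₁ (s σ y) := by
    rw [h1]
    exact Height.logHeight₁_prod_le _ _
  rw [h1_map17] at h4
  have h5 : (finrank k L : ℝ) * (finrank k M * Height.logHeight₁ (Algebra.norm k y)) ≤
      finrank k L * (finrank k M * Height.logHeight₁ y) := by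
    refine (mul_le_mul_of_nonneg_left h4 hd.le).trans ?_
    rw [Finset.mul_sum, Finset.sum_congr rfl fun σ _ => h2 σ, Finset.sum_const, Finset.card_univ, AlgHom.card, nsmul_eq_mul]
  have hM3 : (0 : ℝ) < finrank k M := by exact_mod_cast finrank_pos
  exact le_of_mul_le_mul_left (le_of_mul_le_mul_left h5 hd) hM3

/-- elements of bounded degree and height -/
private theorem elem17 {k : Type u} [Field k] [NumberField k] {Ω : Type u} [Field Ω] [IsAlgClosed Ω] [Algebra k Ω]
    (r : ℕ) (B : ℝ) : {u : Ω | ∃ (L : IntermediateField k Ω) (_ : FiniteDimensional k L) (_ : NumberField L) (y : L),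
      finrank k L ≤ r ∧ Height.logHeight₁ y ≤ B ∧ (y : Ω) = u}.Finite := by
  classical
  have hcΩ : CharZero Ω := charZero_of_injective_algebraMap (algebraMap k Ω).injective
  -- the bound for the heights of the norms
  let B' : ℝ := (r * finrank ℚ k : ℕ) * Real.log 2 + (∑ m ∈ Finset.range (r + 1), r * Height.logHeight₁ (m : k)) + B
  have hfin := NumberField.finite_setOfPred_logHeight₁_le k B'
  set F : Set k := {x : k | Height.logHeight₁ x ≤ B'} with hF
  -- the functions from `{0, …, r}` to the finite set
  have hpi : (Set.pi (Set.univ : Set (Fin (r + 1))) fun _ => F).Finite := Set.Finite.pi fun _ => hfin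
  -- the polynomials
  let Pol : Set (Polynomial Ω) := {P | P.natDegree ≤ r ∧ ∀ m : Fin (r + 1), ∃ x ∈ F, P.eval ((m : ℕ) : Ω) = algebraMap k Ω x}
  have hPol : Pol.Finite := by
    refine Set.Finite.of_finite_image (f := fun (P : Polynomial Ω) (m : Fin (r + 1)) => P.eval ((m : ℕ) : Ω)) ?_ ?_
    · refine Set.Finite.subset (Set.Finite.pi (t := fun _ : Fin (r + 1) => (algebraMap k Ω) '' F) fun _ => hfin.image _) ?_
      rintro _ ⟨P, hP, rfl⟩ m _
      obtain ⟨x, hx, h⟩ := hP.2 m
      exact ⟨x, hx, h.symm⟩
    · intro P hP Q hQ h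
      have h1 : (P - Q) = 0 := by
        refine Polynomial.eq_zero_of_natDegree_lt_card_of_eval_eq_zero (P - Q) (ι := Fin (r + 1))
          (f := fun m => ((m : ℕ) : Ω)) ?_ (fun m => ?_) ?_
        · intro m m' hmm
          exact Fin.ext (Nat.cast_injective (R := Ω) hmm)
        · rw [Polynomial.eval_sub]
          exact sub_eq_zero.2 (congrFun h m)
        · rw [Fintype.card_fin]
          exact lt_of_le_of_lt (Polynomial.natDegree_sub_le _ _) (by have := hP.1; have := hQ.1; omega)
      exact sub_eq_zero.1 h1
  refine ((hPol.subset (Set.sep_subset Pol fun P => P ≠ 0)).biUnion (t := fun P => {u | u ∈ P.roots})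
    fun P _ => (P.roots.toFinset.finite_toSet).subset fun u hu => by simpa using hu).subset ?_
  rintro u ⟨L, hL1, hL2, y, hr, hB, rfl⟩
  let P : Polynomial Ω := ∏ σ : L →ₐ[k] Ω, (Polynomial.X - Polynomial.C (σ y))
  have hP0 : P ≠ 0 := Finset.prod_ne_zero_iff.2 fun σ _ => Polynomial.X_sub_C_ne_zero _
  have hdeg : P.natDegree ≤ r := by
    have h1 : P.natDegree = finrank k L := by
      rw [Polynomial.natDegree_prod _ _ fun σ _ => Polynomial.X_sub_C_ne_zero _]
      simp only [Polynomial.natDegree_X_sub_C]
      rw [Finset.sum_const, Finset.card_univ, AlgHom.card, smul_eq_mul, mul_one]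
    rw [h1]
    exact hr
  simp only [Set.mem_iUnion]
  refine ⟨P, ⟨⟨hdeg, fun m => ?_⟩, hP0⟩, ?_⟩
  · refine ⟨Algebra.norm k ((m : ℕ) - y : L), ?_, ?_⟩
    · show Height.logHeight₁ _ ≤ B'
      refine (norm17 L _).trans ?_
      refine (Height.logHeight₁_sub_le _ _).trans ?_
      have h1 : (Height.totalWeight L : ℝ) ≤ (r * finrank ℚ k : ℕ) := by
        rw [NumberField.totalWeight_eq_finrank, ← finrank_mul_finrank ℚ k L, mul_comm]
        exact_mod_cast Nat.mul_le_mul_right _ hr
      have h2 : Height.logHeight₁ (((m : ℕ) : L)) ≤ ∑ m ∈ Finset.range (r + 1), r * Height.logHeight₁ (m : k) := by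
        have h3 : (((m : ℕ) : L)) = algebraMap k L (m : ℕ) := (map_natCast _ _).symm
        rw [h3, h1_map17]
        refine le_trans ?_ (Finset.single_le_sum (f := fun m : ℕ => (r : ℝ) * Height.logHeight₁ (m : k))
          (fun i _ => mul_nonneg (Nat.cast_nonneg _) (Height.zero_le_logHeight₁ _)) (Finset.mem_range.2 m.2))
        exact mul_le_mul_of_nonneg_right (by exact_mod_cast hr) (Height.zero_le_logHeight₁ _)
      have h3 : (0 : ℝ) ≤ Real.log 2 := Real.log_nonneg (by norm_num)
      have h4 := mul_le_mul_of_nonneg_right h1 h3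
      show _ ≤ (r * finrank ℚ k : ℕ) * Real.log 2 + (∑ m ∈ Finset.range (r + 1), r * Height.logHeight₁ (m : k)) + B
      linarith
    · rw [Algebra.norm_eq_prod_embeddings k Ω]
      show Polynomial.eval _ (∏ σ : L →ₐ[k] Ω, (Polynomial.X - Polynomial.C (σ y))) = _
      rw [Polynomial.eval_prod]
      refine Finset.prod_congr rfl fun σ _ => ?_
      rw [Polynomial.eval_sub, Polynomial.eval_X, Polynomial.eval_C, map_sub, map_natCast]
  · show (y : Ω) ∈ P.roots
    rw [Polynomial.mem_roots hP0, Polynomial.IsRoot.def]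
    show Polynomial.eval _ (∏ σ : L →ₐ[k] Ω, (Polynomial.X - Polynomial.C (σ y))) = _
    rw [Polynomial.eval_prod]
    refine Finset.prod_eq_zero (Finset.mem_univ L.val) ?_
    rw [Polynomial.eval_sub, Polynomial.eval_X, Polynomial.eval_C]
    exact sub_self _

/-! ### A1: Northcott -/

theorem northcott {k : Type u} [Field k] [NumberField k] {N : ℕ} (r : ℕ) (B : ℝ) :
    {x : Fin N → AlgebraicClosure k | (∃ j, x j = 1) ∧ dg x ≤ r ∧ hgt x ≤ B}.Finite := by
  classical
  have h0 := elem17 (k := k) (Ω := AlgebraicClosure k) r (r * |B|)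
  refine (Set.Finite.pi (t := fun _ : Fin N => _) fun _ => h0).subset ?_
  rintro x ⟨⟨j, hj⟩, hr, hB⟩ i _
  have hfd : FiniteDimensional k (fld x) := IntermediateField.finiteDimensional_adjoin fun x _ => Algebra.IsIntegral.isIntegral x
  refine ⟨fld x, hfd, inferInstance, crd x i, hr, ?_, rfl⟩
  have hpos : (0 : ℝ) < dg x := by
    have : 0 < finrank k (fld x) := finrank_pos
    exact_mod_cast this
  have h1 : Height.logHeight₁ (crd x i) ≤ Height.logHeight (crd x) := by
    rw [Height.logHeight₁_eq_logHeight]
    have h9 : ![crd x i, 1] = crd x ∘ (![i, j] : Fin 2 → Fin N) := by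
      funext a
      fin_cases a
      · rfl
      · exact Subtype.ext hj.symm
    rw [h9]
    exact Height.logHeight_comp_le _ _
  have h2 : Height.logHeight (crd x) ≤ dg x * |B| := by
    have h3 : Height.logHeight (crd x) / dg x ≤ B := hB
    rw [div_le_iff₀ hpos] at h3
    refine h3.trans ?_
    rw [mul_comm]
    exact mul_le_mul_of_nonneg_left (le_abs_self B) hpos.le
  refine h1.trans (h2.trans ?_)
  exact mul_le_mul_of_nonneg_right (by exact_mod_cast hr) (abs_nonneg B)

end Pool.Agent.TRI
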