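import Pool.Agent.Helper6.TRI.GDefs

/-!
# TRI, block G12: the plane
-/

set_option autoImplicit false

namespace Pool.Agent.TRI

open Module MvPolynomial

universe u

theorem surf_plane (k₀ : Type u) [Field k₀] : Surf (⊥ : Ideal (MvPolynomial (Fin (2 + 1)) k₀)) := by
  refine ⟨fun p hp m => ?_, Ideal.isPrime_bot, ?_, fun K _ _ => ?_⟩
  · rw [Ideal.mem_bot] at hp ⊢
    rw [hp, map_zero]
  · rw [(AlgEquiv.quotientBot k₀ (MvPolynomial (Fin (2 + 1)) k₀)).trdeg_eq, MvPolynomial.trdeg_of_isDomain]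
    simp
  · rw [Ideal.map_bot]
    exact Ideal.isPrime_bot

theorem plane_end {k E : Type u} [Field k] [Field E] [Algebra k E] {q : ℕ} (l : Fin q → Fin 3 → k) (ξ : Fin 3 → E)
    (g : Fin 4 → Fin q) (z₁ z₂ : Fin 3 → E) (hz : LinearIndependent E ![z₁, z₂]) (h0 : lv (l (g 0)) z₁ = 0) (h1 : lv (l (g 1)) z₁ = 0)
    (h2 : lv (l (g 2)) z₂ = 0) (h3 : lv (l (g 3)) z₂ = 0) (s t : E) (h : ∀ j, ξ j = s * z₁ j + t * z₂ j) :
    lv (Sp l (g 0) (g 1) (g 2) (g 3)) ξ = 0 := by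
  have key : ∀ a b c d z : Fin 3 → E,
      (∑ j, cr (cr a b) (cr c d) j * z j = (∑ j, cr c d j * a j) * (∑ j, b j * z j) - (∑ j, cr c d j * b j) * (∑ j, a j * z j)) ∧
      (∑ j, cr (cr a b) (cr c d) j * z j = (∑ j, cr a b j * d j) * (∑ j, c j * z j) - (∑ j, cr a b j * c j) * (∑ j, d j * z j)) := by
    intro a b c d z
    constructor <;>
    · simp only [Fin.sum_univ_three, cr, Matrix.cons_val_zero, Matrix.cons_val_one, Matrix.cons_val]
      ring
  have hm : ∀ u v : Fin 3 → k, (fun j => algebraMap k E (cr u v j)) = cr (fun j => algebraMap k E (u j)) fun j => algebraMap k E (v j) := by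
    intro u v
    funext j
    fin_cases j <;> simp [cr]
  have hS : ∀ z : Fin 3 → E, lv (Sp l (g 0) (g 1) (g 2) (g 3)) z = ∑ j, cr (cr (fun j => algebraMap k E (l (g 0) j))
      fun j => algebraMap k E (l (g 1) j)) (cr (fun j => algebraMap k E (l (g 2) j)) fun j => algebraMap k E (l (g 3) j)) j * z j := by
    intro z
    unfold lv Sp
    refine Finset.sum_congr rfl fun j _ => ?_
    rw [congrFun (hm _ _) j, hm, hm]
  have e1 : lv (Sp l (g 0) (g 1) (g 2) (g 3)) z₁ = 0 := by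
    rw [hS, (key _ _ _ _ _).1]
    unfold lv at h0 h1
    rw [h0, h1]
    ring
  have e2 : lv (Sp l (g 0) (g 1) (g 2) (g 3)) z₂ = 0 := by
    rw [hS, (key _ _ _ _ _).2]
    unfold lv at h2 h3
    rw [h2, h3]
    ring
  have e3 : lv (Sp l (g 0) (g 1) (g 2) (g 3)) ξ = s * lv (Sp l (g 0) (g 1) (g 2) (g 3)) z₁ + t * lv (Sp l (g 0) (g 1) (g 2) (g 3)) z₂ := by
    unfold lv
    rw [Finset.mul_sum, Finset.mul_sum, ← Finset.sum_add_distrib]
    refine Finset.sum_congr rfl fun j _ => ?_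
    rw [h j]
    ring
  rw [e3, e1, e2]
  ring

end Pool.Agent.TRI
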