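import Pool.Agent.Helper6.TRI.GDefs
import Pool.Agent.Helper97.TRI.Generic

/-!
# TRI, block G13: the function field is one of a curve
-/

set_option autoImplicit false

namespace Pool.Agent.TRI

open Module MvPolynomial

universe u

theorem crv_of {k₀ k E : Type u} [Field k₀] [CharZero k₀] [Field k] [Field E] [Algebra k₀ k] [Algebra k E] [Algebra k₀ E]
    [IsScalarTower k₀ k E] [Algebra.IsAlgebraic k₀ k] {N : ℕ} {I : Ideal (MvPolynomial (Fin (N + 1)) k₀)} (hX : Surf I)
    (ξ : Fin (N + 1) → E) (h1 : ∃ j, ξ j = 1) (hg : IntermediateField.adjoin k (Set.range ξ) = ⊤) (ht : ∃ j, Transcendental k (ξ j))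
    (hξ : OnX I ξ) (Q : MvPolynomial (Fin (N + 1)) k₀) (hQ : Q ∉ I) (hQh : ∃ e, Q.IsHomogeneous e) (hQξ : aeval ξ Q = 0) :
    Crv (Submodule.span k (Set.range ξ)) := by
  classical
  have htr : Algebra.trdeg k₀ (IntermediateField.adjoin k₀ (Set.range ξ)) < 2 := by
    by_contra h
    obtain ⟨e, he⟩ := hQh
    exact hQ (generic hX ξ h1 hξ (not_lt.1 h) Q e he hQξ)
  -- `E` is algebraic over `k₀(ξ)`
  let L : IntermediateField k₀ E := IntermediateField.adjoin k₀ (Set.range ξ)
  have halgE : Algebra.IsAlgebraic L E := by
    refine ⟨fun y => ?_⟩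
    have hy : y ∈ IntermediateField.adjoin k (Set.range ξ) := by
      rw [hg]
      trivial
    induction hy using IntermediateField.adjoin_induction with
    | mem z hz => exact isAlgebraic_algebraMap (⟨z, IntermediateField.subset_adjoin _ _ hz⟩ : L)
    | algebraMap c =>
      have h : IsAlgebraic k₀ (algebraMap k E c) := (Algebra.IsAlgebraic.isAlgebraic (R := k₀) c).algebraMap
      exact h.tower_top L
    | add a b _ _ ha hb => exact ha.add hb
    | inv a _ ha => exact ha.inv
    | mul a b _ _ ha hb => exact ha.mul hb
  have hE : Algebra.trdeg k₀ E < 2 := by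
    have h2 : Algebra.trdeg k₀ L + Algebra.trdeg L E = Algebra.trdeg k₀ E := trdeg_add_eq k₀ L
    rw [trdeg_eq_zero_iff.2 halgE, add_zero] at h2
    rw [← h2]
    exact htr
  refine ⟨?_, ?_, ?_, fun x y hx => ?_⟩
  · obtain ⟨j, hj⟩ := h1
    rw [← hj]
    exact Submodule.subset_span ⟨j, rfl⟩
  · rw [eq_top_iff, ← hg]
    exact IntermediateField.adjoin.mono _ _ _ Submodule.subset_span
  · obtain ⟨j, hj⟩ := ht
    exact ⟨ξ j, Submodule.subset_span ⟨j, rfl⟩, hj⟩
  · by_contra hy
    have hx0 : Transcendental k₀ x := hx.of_tower_top (K := k₀)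
    have h2 : AlgebraicIndependent k₀ (fun _ : Unit => x) := algebraicIndependent_unique_type_iff.2 hx0
    have h3 : Transcendental (Algebra.adjoin k₀ (Set.range fun _ : Unit => x)) y := by
      intro h4
      apply hy
      have hle : ∀ z : E, z ∈ Algebra.adjoin k₀ (Set.range fun _ : Unit => x) → z ∈ IntermediateField.adjoin k {x} := by
        intro z hz
        induction hz using Algebra.adjoin_induction with
        | mem z hz =>
          obtain ⟨_, rfl⟩ := hz
          exact IntermediateField.subset_adjoin _ _ rfl
        | algebraMap c =>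
          rw [IsScalarTower.algebraMap_apply k₀ k E]
          exact IntermediateField.algebraMap_mem _ _
        | add a b _ _ ha hb => exact add_mem ha hb
        | mul a b _ _ ha hb => exact mul_mem ha hb
      let ι : Algebra.adjoin k₀ (Set.range fun _ : Unit => x) →+* IntermediateField.adjoin k {x} :=
        { toFun := fun z => ⟨z.1, hle _ z.2⟩
          map_one' := rfl
          map_zero' := rfl
          map_add' := fun _ _ => rfl
          map_mul' := fun _ _ => rfl }
      let _ : Algebra (Algebra.adjoin k₀ (Set.range fun _ : Unit => x)) (IntermediateField.adjoin k {x}) := ι.toAlgebra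
      have : IsScalarTower (Algebra.adjoin k₀ (Set.range fun _ : Unit => x)) (IntermediateField.adjoin k {x}) E :=
        IsScalarTower.of_algebraMap_eq fun z => rfl
      refine h4.extendScalars fun a b hab => ?_
      exact Subtype.ext (congrArg (fun w : IntermediateField.adjoin k {x} => (w : E)) hab)
    have h4 := (h2.option_iff_transcendental y).2 h3
    have h5 := h4.lift_cardinalMk_le_trdeg
    have h6 : Cardinal.lift.{u} (Cardinal.mk (Option Unit)) = 2 := by
      rw [Cardinal.mk_fintype, Fintype.card_option, Fintype.card_unit]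
      norm_num
    rw [h6, Cardinal.lift_uzero] at h5
    exact absurd h5 (not_le.2 hE)

end Pool.Agent.TRI
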